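import Pool.Agent.W792.LL.Stm

/-!
# LL-ORD: orthogonality of phase monomials
-/

set_option autoImplicit false

namespace Pool.Agent.W395.LLOrd

open MeasureTheory Pool.Agent.W792.LL
open scoped ComplexConjugate

noncomputable section

/-- the phase monomial of a word -/
def X {Γ : Type} {n : ℕ} (w : Fin n → Γ) (v : Γ → ℝ) : ℂ := ∏ i, cay (v (w i))

lemma norm_X (h : S_CAY) {Γ : Type} {n : ℕ} (w : Fin n → Γ) (v : Γ → ℝ) : ‖X w v‖ = 1 := by
  unfold X
  rw [norm_prod]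
  exact Finset.prod_eq_one fun i _ => h.1 _

lemma meas_X (h : S_CAY) {Γ : Type} {n : ℕ} (w : Fin n → Γ) : Measurable (X w) := by
  unfold X
  exact Finset.measurable_prod _ fun i _ => h.2.1.measurable.comp (measurable_pi_apply _)

/-- number of occurrences -/
def cnt {Γ : Type} [DecidableEq Γ] {n : ℕ} (w : Fin n → Γ) (x : Γ) : ℕ :=
  (Finset.univ.filter (fun i => w i = x)).card

lemma X_eq {Γ : Type} [DecidableEq Γ] {n : ℕ} (F : Finset Γ) (w : Fin n → Γ)
    (hw : ∀ i, w i ∈ F) (v : Γ → ℝ) : X w v = ∏ x ∈ F, cay (v x) ^ cnt w x := by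
  unfold X cnt
  rw [← Finset.prod_fiberwise_of_maps_to (s := Finset.univ) (t := F) (g := w)
    (fun i _ => hw i) (fun i => cay (v (w i)))]
  refine Finset.prod_congr rfl fun x _ => ?_
  rw [Finset.prod_congr rfl (fun i hi => ?_), Finset.prod_const]
  rw [(Finset.mem_filter.1 hi).2]

lemma exists_perm {Γ : Type} [DecidableEq Γ] {n : ℕ} (w w' : Fin n → Γ)
    (h : ∀ x, cnt w x = cnt w' x) : ∃ σ : Equiv.Perm (Fin n), w' = w ∘ σ := by
  have e : ∀ x, Nonempty ({i // w' i = x} ≃ {i // w i = x}) := fun x => by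
    apply Fintype.card_eq.1
    rw [Fintype.card_subtype, Fintype.card_subtype]
    exact (h x).symm
  refine ⟨((Equiv.sigmaFiberEquiv w').symm.trans
    (Equiv.sigmaCongrRight fun x => (e x).some)).trans (Equiv.sigmaFiberEquiv w), ?_⟩
  funext i
  exact (((e (w' i)).some ⟨i, rfl⟩).2).symm

/-- the moments of one phase -/
lemma mom1 (h : S_CAY) {a b : ℕ} (hab : a ≠ b) :
    ∫ t, cay t ^ a * conj (cay t) ^ b ∂(ProbabilityTheory.cauchyMeasure 0 1) = 0 := by
  have key : ∀ t : ℝ, cay t * conj (cay t) = 1 := by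
    intro t
    rw [Complex.mul_conj, Complex.normSq_eq_norm_sq, h.1 t]
    norm_num
  rcases lt_or_gt_of_ne hab with hlt | hlt
  · obtain ⟨k, hk, rfl⟩ : ∃ k, 0 < k ∧ b = a + k := ⟨b - a, by omega, by omega⟩
    have e : ∀ t : ℝ, cay t ^ a * conj (cay t) ^ (a + k) = conj (cay t ^ k) := by
      intro t
      rw [pow_add, ← mul_assoc, ← mul_pow, key, one_pow, one_mul, map_pow]
    simp only [e]
    rw [integral_conj, h.2.2.2 k hk, map_zero]
  · obtain ⟨k, hk, rfl⟩ : ∃ k, 0 < k ∧ a = b + k := ⟨a - b, by omega, by omega⟩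
    have e : ∀ t : ℝ, cay t ^ (b + k) * conj (cay t) ^ b = cay t ^ k := by
      intro t
      rw [pow_add, mul_right_comm, ← mul_pow, key, one_pow, one_mul]
    simp only [e]
    exact h.2.2.2 k hk

lemma EXX (h : S_CAY) {Γ : Type} [DecidableEq Γ] {n : ℕ} (F : Finset Γ) (w w' : Fin n → Γ)
    (hw : ∀ i, w i ∈ F) (hw' : ∀ i, w' i ∈ F) (hx : ¬ ∀ x, cnt w x = cnt w' x) :
    ∫ v, X w v * conj (X w' v) ∂(Pm Γ) = 0 := by
  obtain ⟨x, hx⟩ := not_forall.1 hx
  have hxF : x ∈ F := by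
    by_contra hn
    apply hx
    unfold cnt
    rw [Finset.card_eq_zero.2, Finset.card_eq_zero.2]
    · refine Finset.filter_eq_empty_iff.2 fun i _ hi => hn ?_
      rw [← hi]
      exact hw' i
    · refine Finset.filter_eq_empty_iff.2 fun i _ hi => hn ?_
      rw [← hi]
      exact hw i
  have e : ∀ v : Γ → ℝ, X w v * conj (X w' v) =
      ∏ y : F, (cay (F.restrict v y) ^ cnt w y * conj (cay (F.restrict v y)) ^ cnt w' y) := by
    intro v
    rw [X_eq F w hw, X_eq F w' hw', map_prod, ← Finset.prod_mul_distrib,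
      ← Finset.prod_coe_sort F]
    refine Finset.prod_congr rfl fun y _ => ?_
    rw [map_pow]
    rfl
  simp only [e]
  have hm : AEStronglyMeasurable (fun u : (i : F) → ℝ =>
      ∏ y : F, (cay (u y) ^ cnt w y * conj (cay (u y)) ^ cnt w' y))
      (Measure.pi fun _ : F => ProbabilityTheory.cauchyMeasure 0 1) := by
    refine Measurable.aestronglyMeasurable ?_
    refine Finset.measurable_prod _ fun y _ => ?_
    have hc : Measurable fun u : (i : F) → ℝ => cay (u y) :=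
      h.2.1.measurable.comp (measurable_pi_apply _)
    exact (hc.pow_const _).mul ((Complex.continuous_conj.measurable.comp hc).pow_const _)
  refine (integral_restrict_infinitePi (X := fun _ : Γ => ℝ)
    (μ := fun _ : Γ => ProbabilityTheory.cauchyMeasure 0 1) (s := F) hm).trans ?_
  rw [integral_fintype_prod_eq_prod (fun (y : F) (t : ℝ) =>
      cay t ^ cnt w y * conj (cay t) ^ cnt w' y)]
  exact Finset.prod_eq_zero (Finset.mem_univ ⟨x, hxF⟩) (mom1 h hx)

lemma EXX_le (h : S_CAY) {Γ : Type} [DecidableEq Γ] {n : ℕ} (F : Finset Γ) (w w' : Fin n → Γ)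
    (hw : ∀ i, w i ∈ F) (hw' : ∀ i, w' i ∈ F) :
    ‖∫ v, X w v * conj (X w' v) ∂(Pm Γ)‖ ≤
      ∑ σ : Equiv.Perm (Fin n), if w' = w ∘ σ then (1 : ℝ) else 0 := by
  have h0 : ∀ σ : Equiv.Perm (Fin n), (0 : ℝ) ≤ if w' = w ∘ σ then (1 : ℝ) else 0 := by
    intro σ
    split_ifs <;> norm_num
  by_cases hx : ∀ x, cnt w x = cnt w' x
  · obtain ⟨σ, hσ⟩ := exists_perm w w' hx
    have h1 : ‖∫ v, X w v * conj (X w' v) ∂(Pm Γ)‖ ≤ 1 := by
      refine (norm_integral_le_of_norm_le_const (C := 1) (Filter.Eventually.of_forall fun v => ?_)).trans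
        (by simp)
      rw [norm_mul, RCLike.norm_conj, norm_X h, norm_X h, one_mul]
    have h2 := Finset.single_le_sum (f := fun σ : Equiv.Perm (Fin n) =>
      if w' = w ∘ σ then (1 : ℝ) else 0) (fun σ _ => h0 σ) (Finset.mem_univ σ)
    refine h1.trans (le_trans ?_ h2)
    show (1 : ℝ) ≤ if w' = w ∘ σ then (1 : ℝ) else 0
    rw [if_pos hσ]
  · rw [EXX h F w w' hw hw' hx, norm_zero]
    exact Finset.sum_nonneg fun σ _ => h0 σ

theorem main : S_CAY → S_ORD := by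
  intro h Γ _ _ n F a
  set P := Fintype.piFinset (fun _ : Fin n => F) with hP
  have hmem : ∀ w, w ∈ P ↔ ∀ i, w i ∈ F := fun w => Fintype.mem_piFinset
  -- expand
  have e1 : ∀ v : Γ → ℝ, ((‖∑ w ∈ P, a w * ∏ i, cay (v (w i))‖ ^ 2 : ℝ) : ℂ) =
      ∑ w ∈ P, ∑ w' ∈ P, a w * conj (a w') * (X w v * conj (X w' v)) := by
    intro v
    have : ((‖∑ w ∈ P, a w * ∏ i, cay (v (w i))‖ ^ 2 : ℝ) : ℂ) =
        (∑ w ∈ P, a w * X w v) * conj (∑ w ∈ P, a w * X w v) := by
      rw [Complex.mul_conj, Complex.normSq_eq_norm_sq]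
      rfl
    rw [this, map_sum, Finset.sum_mul_sum]
    refine Finset.sum_congr rfl fun w _ => Finset.sum_congr rfl fun w' _ => ?_
    rw [map_mul]
    ring
  have hint : ∀ w w' : Fin n → Γ,
      Integrable (fun v => a w * conj (a w') * (X w v * conj (X w' v))) (Pm Γ) := by
    intro w w'
    refine Integrable.const_mul ?_ _
    refine Integrable.of_bound ((meas_X h w).mul
      (Complex.continuous_conj.measurable.comp (meas_X h w'))).aestronglyMeasurable 1
      (Filter.Eventually.of_forall fun v => ?_)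
    rw [norm_mul, RCLike.norm_conj, norm_X h, norm_X h, one_mul]
  have e2 : ((∫ v, ‖∑ w ∈ P, a w * ∏ i, cay (v (w i))‖ ^ 2 ∂(Pm Γ) : ℝ) : ℂ) =
      ∑ w ∈ P, ∑ w' ∈ P, a w * conj (a w') * ∫ v, X w v * conj (X w' v) ∂(Pm Γ) := by
    rw [← integral_complex_ofReal]
    rw [integral_congr_ae (Filter.Eventually.of_forall e1)]
    rw [integral_finsetSum _ fun w _ => integrable_finsetSum _ fun w' _ => hint w w']
    refine Finset.sum_congr rfl fun w _ => ?_
    rw [integral_finsetSum _ fun w' _ => hint w w']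
    refine Finset.sum_congr rfl fun w' _ => ?_
    rw [integral_const_mul]
  have e3 : ∫ v, ‖∑ w ∈ P, a w * ∏ i, cay (v (w i))‖ ^ 2 ∂(Pm Γ) ≤
      ∑ w ∈ P, ∑ w' ∈ P, ‖a w‖ * ‖a w'‖ *
        ∑ σ : Equiv.Perm (Fin n), if w' = w ∘ σ then (1 : ℝ) else 0 := by
    calc ∫ v, ‖∑ w ∈ P, a w * ∏ i, cay (v (w i))‖ ^ 2 ∂(Pm Γ)
        ≤ ‖((∫ v, ‖∑ w ∈ P, a w * ∏ i, cay (v (w i))‖ ^ 2 ∂(Pm Γ) : ℝ) : ℂ)‖ := by
          rw [Complex.norm_real]
          exact le_abs_self _
      _ ≤ _ := by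
          rw [e2]
          refine (norm_sum_le _ _).trans (Finset.sum_le_sum fun w hw => ?_)
          refine (norm_sum_le _ _).trans (Finset.sum_le_sum fun w' hw' => ?_)
          rw [norm_mul, norm_mul, RCLike.norm_conj]
          exact mul_le_mul_of_nonneg_left (EXX_le h F w w' ((hmem w).1 hw) ((hmem w').1 hw'))
            (mul_nonneg (norm_nonneg _) (norm_nonneg _))
  have e4 : (∑ w ∈ P, ∑ w' ∈ P, ‖a w‖ * ‖a w'‖ *
        ∑ σ : Equiv.Perm (Fin n), if w' = w ∘ σ then (1 : ℝ) else 0) =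
      ∑ σ : Equiv.Perm (Fin n), ∑ w ∈ P, ‖a w‖ * ‖a (w ∘ σ)‖ := by
    have g1 : (∑ w ∈ P, ∑ w' ∈ P, ‖a w‖ * ‖a w'‖ *
        ∑ σ : Equiv.Perm (Fin n), if w' = w ∘ σ then (1 : ℝ) else 0) =
        ∑ w ∈ P, ∑ σ : Equiv.Perm (Fin n), ∑ w' ∈ P, ‖a w‖ * ‖a w'‖ *
          if w' = w ∘ σ then (1 : ℝ) else 0 := by
      refine Finset.sum_congr rfl fun w _ => ?_
      simp_rw [Finset.mul_sum]
      rw [Finset.sum_comm]
    rw [g1, Finset.sum_comm]
    refine Finset.sum_congr rfl fun σ _ => Finset.sum_congr rfl fun w hw => ?_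
    rw [Finset.sum_eq_single (w ∘ σ)]
    · rw [if_pos rfl, mul_one]
    · intro w' _ hne
      rw [if_neg hne, mul_zero]
    · intro hn
      refine absurd ?_ hn
      rw [hmem] at hw ⊢
      exact fun i => hw _
  have e5 : ∀ σ : Equiv.Perm (Fin n), ∑ w ∈ P, ‖a w‖ * ‖a (w ∘ σ)‖ ≤ ∑ w ∈ P, ‖a w‖ ^ 2 := by
    intro σ
    have f1 : ∑ w ∈ P, ‖a (w ∘ σ)‖ ^ 2 = ∑ w ∈ P, ‖a w‖ ^ 2 := by
      refine Finset.sum_bij' (fun w _ => w ∘ σ) (fun w _ => w ∘ σ.symm) ?_ ?_ ?_ ?_ ?_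
      · intro w hw
        rw [hmem] at hw ⊢
        exact fun i => hw _
      · intro w hw
        rw [hmem] at hw ⊢
        exact fun i => hw _
      · intro w _
        funext i
        simp
      · intro w _
        funext i
        simp
      · intro w _
        rfl
    have f2 : ∑ w ∈ P, ‖a w‖ * ‖a (w ∘ σ)‖ ≤
        ∑ w ∈ P, (‖a w‖ ^ 2 + ‖a (w ∘ σ)‖ ^ 2) / 2 := by
      refine Finset.sum_le_sum fun w _ => ?_
      nlinarith [sq_nonneg (‖a w‖ - ‖a (w ∘ σ)‖)]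
    refine f2.trans (le_of_eq ?_)
    rw [← Finset.sum_div, Finset.sum_add_distrib, f1]
    ring
  refine e3.trans ?_
  rw [e4]
  refine (Finset.sum_le_sum fun σ _ => e5 σ).trans (le_of_eq ?_)
  rw [Finset.sum_const, Finset.card_univ, Fintype.card_perm, Fintype.card_fin, nsmul_eq_mul]

end

end Pool.Agent.W395.LLOrd
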